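import Mathlib

/-!
Arithmetic of sparse sums of powers of `p`.
-/

set_option autoImplicit false

namespace Pool.Agent.MP12ebf5

/-- Sparse powers of `p`. -/
def q (p m : ℕ) : ℕ := p ^ (m * m)

/-- Their partial sums. -/
def sg (p m : ℕ) : ℕ := ∑ j ∈ Finset.range m, q p j

section

variable {p : ℕ} (hp : p.Prime)

theorem sg_succ (p m : ℕ) : sg p (m + 1) = sg p m + q p m := Finset.sum_range_succ _ _

theorem sg_zero (p : ℕ) : sg p 0 = 0 := rfl

include hp in
theorem q_pos (m : ℕ) : 0 < q p m := pow_pos hp.pos _

theorem q_succ (p m : ℕ) : q p (m + 1) = q p m * p ^ (2 * m + 1) := by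
  rw [q, q, ← pow_add]
  congr 1
  ring

include hp in
theorem lt_pow_helper (m : ℕ) : 2 * (m + 1) ≤ p ^ (2 * m + 1) := by
  have h1 : 2 ^ (2 * m + 1) ≤ p ^ (2 * m + 1) := Nat.pow_le_pow_left hp.two_le _
  have h2 : m + 1 ≤ 2 ^ (2 * m) := by
    calc m + 1 ≤ 2 * m + 1 := by omega
      _ ≤ 2 ^ (2 * m) := Nat.lt_two_pow_self
  have h3 : 2 ^ (2 * m + 1) = 2 * 2 ^ (2 * m) := by ring
  omega

include hp in
theorem mul_sg_le (m : ℕ) : m * sg p m ≤ q p m ∧ sg p m ≤ q p m := by
  induction m with
  | zero => simp [sg_zero]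
  | succ m ih =>
    have h1 := lt_pow_helper hp m
    have h2 : sg p (m + 1) ≤ 2 * q p m := by
      rw [sg_succ]
      omega
    have hq := q_pos hp m
    constructor
    · calc (m + 1) * sg p (m + 1) ≤ (m + 1) * (2 * q p m) := Nat.mul_le_mul_left _ h2
        _ = q p m * (2 * (m + 1)) := by ring
        _ ≤ q p m * p ^ (2 * m + 1) := Nat.mul_le_mul_left _ h1
        _ = q p (m + 1) := (q_succ p m).symm
    · calc sg p (m + 1) ≤ 2 * q p m := h2
        _ ≤ q p m * (2 * (m + 1)) := by nlinarith
        _ ≤ q p m * p ^ (2 * m + 1) := Nat.mul_le_mul_left _ h1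
        _ = q p (m + 1) := (q_succ p m).symm

include hp in
theorem sg_lt (m : ℕ) : sg p m < q p m := by
  rcases Nat.eq_zero_or_pos m with rfl | hm
  · rw [sg_zero]
    exact q_pos hp 0
  · obtain ⟨m, rfl⟩ := Nat.exists_eq_add_of_lt hm
    rcases Nat.eq_zero_or_pos m with rfl | hm'
    · -- `m + 1 = 1`
      have h1 : sg p (0 + 0 + 1) = 1 := by simp [sg, q]
      have h2 : q p (0 + 0 + 1) = p := by simp [q]
      rw [h1, h2]
      exact hp.one_lt
    · have h := (mul_sg_le hp (0 + m + 1)).1
      have h2 := q_pos hp (0 + m + 1)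
      nlinarith

include hp in
theorem q_lt_succ (m : ℕ) : 2 * q p m ≤ q p (m + 1) := by
  rw [q_succ]
  have h1 := lt_pow_helper hp m
  have hq := q_pos hp m
  nlinarith

include hp in
theorem q_strictMono : StrictMono (q p) := by
  apply strictMono_nat_of_lt_succ
  intro m
  have h1 := q_lt_succ hp m
  have hq := q_pos hp m
  omega

include hp in
theorem lt_q (m : ℕ) : m < q p m := by
  induction m with
  | zero => exact q_pos hp 0
  | succ m ih =>
    have h1 := q_lt_succ hp m
    omega

theorem sg_mono (p : ℕ) : Monotone (sg p) := by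
  apply monotone_nat_of_le_succ
  intro m
  rw [sg_succ]
  omega

variable {k : Type*} [Field k] [CharP k p]

include hp in
theorem choose_add_q (N m t : ℕ) (ht : t < q p m) :
    ((N + q p m).choose t : k) = (N.choose t : k) := by
  rw [Nat.add_choose_eq]
  push_cast
  rw [Finset.sum_eq_single (t, 0)]
  · simp
  · rintro ⟨i, j⟩ hij hne
    rw [Finset.HasAntidiagonal.mem_antidiagonal] at hij
    simp only at hij
    have hj0 : j ≠ 0 := by
      rintro rfl
      apply hne
      simp only [Prod.mk.injEq, and_true]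
      omega
    have hdvd : p ∣ (q p m).choose j := by
      apply hp.dvd_choose_pow hj0
      intro h
      rw [q] at ht
      omega
    have : (((q p m).choose j : ℕ) : k) = 0 := (CharP.cast_eq_zero_iff k p _).2 hdvd
    rw [this, mul_zero]
  · intro h
    exfalso
    apply h
    rw [Finset.HasAntidiagonal.mem_antidiagonal]
    simp

include hp in
theorem choose_sg_stable (m M t : ℕ) (hM : m ≤ M) (ht : t < q p m) :
    ((sg p M).choose t : k) = ((sg p m).choose t : k) := by
  induction M, hM using Nat.le_induction with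
  | base => rfl
  | succ M hM ih =>
    rw [sg_succ, choose_add_q hp _ _ _ (lt_of_lt_of_le ht ((q_strictMono hp).monotone hM)), ih]

/-- The eventual value of `choose (sg M) t` in `k`. -/
def cc (k : Type*) [Field k] (p t : ℕ) : k := ((sg p t).choose t : k)

include hp in
theorem cc_eq (M t : ℕ) (hM : t ≤ M) : ((sg p M).choose t : k) = cc k p t :=
  choose_sg_stable hp t M t hM (lt_q hp t)

include hp in
theorem cc_eq' (m t : ℕ) (ht : t < q p m) : cc k p t = ((sg p m).choose t : k) := by
  rcases le_total t m with h | h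
  · exact (cc_eq hp m t h).symm
  · exact choose_sg_stable hp m t t h ht

include hp in
theorem cc_zero_of (m t : ℕ) (h1 : sg p m < t) (h2 : t < q p m) : cc k p t = 0 := by
  rw [cc_eq' hp m t h2, Nat.choose_eq_zero_of_lt h1]
  simp

omit [CharP k p] in
theorem cc_zero : cc k p 0 = 1 := by
  simp [cc]

include hp in
theorem cc_q (m : ℕ) : cc k p (q p m) = 1 := by
  rw [cc_eq' hp (m + 1) (q p m) (by have := q_lt_succ hp m; have := q_pos hp m; omega), sg_succ,
    Nat.add_choose_eq]
  push_cast
  rw [Finset.sum_eq_single (0, q p m)]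
  · simp
  · rintro ⟨i, j⟩ hij hne
    rw [Finset.HasAntidiagonal.mem_antidiagonal] at hij
    simp only at hij
    by_cases hj0 : j = 0
    · subst hj0
      have hi : i = q p m := by omega
      subst hi
      have := sg_lt hp m
      rw [Nat.choose_eq_zero_of_lt this]
      simp
    · have hdvd : p ∣ (q p m).choose j := by
        apply hp.dvd_choose_pow hj0
        intro h
        apply hne
        rw [← q] at h
        simp only [Prod.mk.injEq]
        omega
      have : (((q p m).choose j : ℕ) : k) = 0 := (CharP.cast_eq_zero_iff k p _).2 hdvd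
      rw [this, mul_zero]
  · intro h
    exfalso
    apply h
    rw [Finset.HasAntidiagonal.mem_antidiagonal]
    simp

end

end Pool.Agent.MP12ebf5
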