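import Mathlib

/-!
Definitions for holonomic modules over the ring of differential operators of a polynomial ring in
`n` variables over a field `k`.
-/

set_option autoImplicit false

namespace Pool.Agent.MP12ebf5

variable (k : Type*) [Field k] (n : ℕ)

/-- The divided power operator `D_{t,i}`, with `D_{t,i} (x ^ u) = choose (u_i) t • x ^ (u - t e_i)`
on monomials. -/
noncomputable def hasse (i : Fin n) (t : ℕ) : Module.End k (MvPolynomial (Fin n) k) :=
  (MvPolynomial.basisMonomials (Fin n) k).constr k
    (fun u => (Nat.choose (u i) t : k) • MvPolynomial.monomial (u - Finsupp.single i t) (1 : k))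

/-- The ring of differential operators: the `k`-subalgebra of `End_k R` generated by
multiplications and all the `D_{t,i}`. -/
noncomputable def DiffOps : Subalgebra k (Module.End k (MvPolynomial (Fin n) k)) :=
  Algebra.adjoin k ({T | ∃ f, T = LinearMap.mulLeft k f} ∪ {T | ∃ i t, T = hasse k n i t})

/-- The basis product `x_1^{a_1} ⋯ x_n^{a_n} D_{t_1,1} ⋯ D_{t_n,n}`. -/
noncomputable def basisOp (a t : Fin n →₀ ℕ) : Module.End k (MvPolynomial (Fin n) k) :=
  LinearMap.mulLeft k (MvPolynomial.monomial a (1 : k)) *
    (List.ofFn (fun i => hasse k n i (t i))).prod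

/-- The `s`-th piece of the Bernstein filtration. -/
noncomputable def bernstein (s : ℕ) : Submodule k (DiffOps k n) :=
  (Submodule.span k {T | ∃ a t : Fin n →₀ ℕ, (∑ i, a i) + (∑ i, t i) ≤ s ∧
    T = basisOp k n a t}).comap (DiffOps k n).val.toLinearMap

section modules

variable (M : Type*) [AddCommGroup M] [Module (DiffOps k n) M] [Module k M]

/-- `k`-filtrations of a module over the ring of differential operators. -/
structure IsKFiltration (F : ℕ → Submodule k M) : Prop where
  mono : ∀ i, F i ≤ F (i + 1)
  exhaust : ∀ m : M, ∃ i, m ∈ F i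
  smul_mem : ∀ i j, ∀ P ∈ bernstein k n i, ∀ m ∈ F j, P • m ∈ F (i + j)

/-- Holonomic modules: there is a `k`-filtration with `dim F_i ≤ C i ^ n` for all `i ≥ 1`. -/
def IsHolonomic : Prop :=
  ∃ F : ℕ → Submodule k M, IsKFiltration k n M F ∧ ∃ C : ℝ, ∀ i : ℕ, 1 ≤ i →
    Module.Finite k (F i) ∧ (Module.finrank k (F i) : ℝ) ≤ C * (i : ℝ) ^ n

variable {M}

/-- `M_i = F_i M_0` for `M_0` the `k`-span of the finite set `S`. -/
def generated (S : Finset M) (i : ℕ) : Submodule k M :=
  Submodule.span k {m | ∃ P ∈ bernstein k n i, ∃ m₀ ∈ Submodule.span k (S : Set M), m = P • m₀}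

/-- `e(M) = limsup dim M_i / i ^ n`, computed with the finite generating set `S`. -/
noncomputable def eMult (S : Finset M) : ℝ :=
  Filter.limsup (fun i : ℕ => (Module.finrank k (generated k n S i) : ℝ) / (i : ℝ) ^ n)
    Filter.atTop

end modules

end Pool.Agent.MP12ebf5
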