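import Mathlib
import Pool.Agent.MP_12ebf5_al.Defs

/-!
The operators in one variable.
-/

set_option autoImplicit false

namespace Pool.Agent.MP12ebf5

open MvPolynomial

section

variable (k : Type*) [Field k]

/-- The monomial `x ^ v` in one variable. -/
noncomputable def mono (v : ℕ) : MvPolynomial (Fin 1) k := monomial (Finsupp.single 0 v) 1

theorem fin1_eq (u : Fin 1 →₀ ℕ) : u = Finsupp.single 0 (u 0) := by
  ext
  simp

theorem mono_eq_basis (v : ℕ) :
    mono k v = MvPolynomial.basisMonomials (Fin 1) k (Finsupp.single 0 v) := by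
  rw [mono, MvPolynomial.coe_basisMonomials]

theorem hasse_mono (t v : ℕ) : hasse k 1 0 t (mono k v) = (v.choose t : k) • mono k (v - t) := by
  rw [mono_eq_basis, hasse, Module.Basis.constr_basis]
  rw [mono, ← Finsupp.single_tsub]
  simp

theorem basisOp_mono (a t : Fin 1 →₀ ℕ) (v : ℕ) :
    basisOp k 1 a t (mono k v) = (v.choose (t 0) : k) • mono k (v - t 0 + a 0) := by
  have h1 : (List.ofFn (fun i => hasse k 1 i (t i))).prod = hasse k 1 0 (t 0) := by
    simp [List.ofFn_succ]
  rw [basisOp, h1, Module.End.mul_apply, hasse_mono, map_smul, LinearMap.mulLeft_apply]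
  congr 1
  rw [mono, mono, monomial_mul, one_mul]
  congr 1
  conv_lhs => rw [fin1_eq a]
  rw [← Finsupp.single_add, add_comm]

theorem end_ext {P Q : Module.End k (MvPolynomial (Fin 1) k)}
    (h : ∀ v, P (mono k v) = Q (mono k v)) : P = Q := by
  apply (MvPolynomial.basisMonomials (Fin 1) k).ext
  intro u
  rw [fin1_eq u, ← mono_eq_basis]
  exact h _

theorem mono_inj {v w : ℕ} (h : mono k v = mono k w) : v = w := by
  rw [mono_eq_basis, mono_eq_basis] at h
  have := (MvPolynomial.basisMonomials (Fin 1) k).injective h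
  simpa using congrArg (fun u : Fin 1 →₀ ℕ => u 0) this

theorem mono_linearIndependent : LinearIndependent k (mono k) := by
  have h := (MvPolynomial.basisMonomials (Fin 1) k).linearIndependent
  have h2 := h.comp (fun v : ℕ => (Finsupp.single (0 : Fin 1) v))
    (fun v w h => by simpa using congrArg (fun u : Fin 1 →₀ ℕ => u 0) h)
  have h3 : mono k = (MvPolynomial.basisMonomials (Fin 1) k) ∘
      (fun v : ℕ => (Finsupp.single (0 : Fin 1) v)) := by
    funext v
    exact mono_eq_basis k v
  rw [h3]
  exact h2

theorem basisOp_mem (a t : Fin 1 →₀ ℕ) : basisOp k 1 a t ∈ DiffOps k 1 := by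
  have h1 : (List.ofFn (fun i => hasse k 1 i (t i))).prod = hasse k 1 0 (t 0) := by
    simp [List.ofFn_succ]
  rw [basisOp, h1]
  exact Subalgebra.mul_mem _ (Algebra.subset_adjoin (Or.inl ⟨_, rfl⟩))
    (Algebra.subset_adjoin (Or.inr ⟨_, _, rfl⟩))

/-- Basis products as elements of the ring of differential operators. -/
noncomputable def bop (a t : ℕ) : DiffOps k 1 :=
  ⟨basisOp k 1 (Finsupp.single 0 a) (Finsupp.single 0 t), basisOp_mem k _ _⟩

theorem bop_mono (a t v : ℕ) :
    (bop k a t : Module.End k (MvPolynomial (Fin 1) k)) (mono k v) =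
      (v.choose t : k) • mono k (v - t + a) := by
  rw [bop]
  simp only
  rw [basisOp_mono]
  simp

theorem bernstein_eq (s : ℕ) : bernstein k 1 s =
    Submodule.span k {P | ∃ a t : ℕ, a + t ≤ s ∧ P = bop k a t} := by
  have h1 : (Submodule.span k {T | ∃ a t : Fin 1 →₀ ℕ, (∑ i, a i) + (∑ i, t i) ≤ s ∧
      T = basisOp k 1 a t}) =
      (Submodule.span k {P | ∃ a t : ℕ, a + t ≤ s ∧ P = bop k a t}).map
        (DiffOps k 1).val.toLinearMap := by
    rw [Submodule.map_span]
    congr 1
    ext T
    constructor
    · rintro ⟨a, t, h, rfl⟩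
      refine ⟨bop k (a 0) (t 0), ⟨a 0, t 0, by simpa using h, rfl⟩, ?_⟩
      change basisOp k 1 (Finsupp.single 0 (a 0)) (Finsupp.single 0 (t 0)) = _
      rw [← fin1_eq, ← fin1_eq]
    · rintro ⟨P, ⟨a, t, h, rfl⟩, rfl⟩
      exact ⟨Finsupp.single 0 a, Finsupp.single 0 t, by simpa using h, rfl⟩
  rw [bernstein, h1, Submodule.comap_map_eq_of_injective]
  exact Subtype.val_injective

theorem bop_mem_bernstein {a t s : ℕ} (h : a + t ≤ s) : bop k a t ∈ bernstein k 1 s := by
  rw [bernstein_eq]
  exact Submodule.subset_span ⟨a, t, h, rfl⟩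

theorem bernstein_mono {s s' : ℕ} (h : s ≤ s') : bernstein k 1 s ≤ bernstein k 1 s' := by
  rw [bernstein_eq, bernstein_eq]
  apply Submodule.span_mono
  rintro P ⟨a, t, h1, rfl⟩
  exact ⟨a, t, h1.trans h, rfl⟩

/-- The product formula. -/
theorem bop_mul (a t b s : ℕ) : bop k a t * bop k b s =
    ∑ r ∈ Finset.range (min b t + 1),
      ((b.choose r * (s + (t - r)).choose s : ℕ) : k) • bop k (a + (b - r)) (s + (t - r)) := by
  apply Subtype.ext
  apply end_ext
  intro v
  have hsum : ((∑ r ∈ Finset.range (min b t + 1),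
      ((b.choose r * (s + (t - r)).choose s : ℕ) : k) • bop k (a + (b - r)) (s + (t - r)) :
        DiffOps k 1) : Module.End k (MvPolynomial (Fin 1) k)) (mono k v) =
      ∑ r ∈ Finset.range (min b t + 1), ((b.choose r * (s + (t - r)).choose s : ℕ) : k) •
        ((v.choose (s + (t - r)) : k) • mono k (v - (s + (t - r)) + (a + (b - r)))) := by
    simp only [AddSubmonoidClass.coe_finsetSum, LinearMap.sum_apply]
    apply Finset.sum_congr rfl
    intro r _
    rw [← bop_mono]
    rfl
  rw [hsum]
  have hleft : ((bop k a t * bop k b s : DiffOps k 1) : Module.End k (MvPolynomial (Fin 1) k))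
      (mono k v) = ((v.choose s : k) * ((v - s + b).choose t : k)) • mono k (v - s + b - t + a) := by
    change (bop k a t : Module.End k (MvPolynomial (Fin 1) k))
      ((bop k b s : Module.End k (MvPolynomial (Fin 1) k)) (mono k v)) = _
    rw [bop_mono, map_smul, bop_mono, smul_smul]
  rw [hleft]
  -- reduce to a single monomial
  have hterm : ∀ r ∈ Finset.range (min b t + 1),
      ((b.choose r * (s + (t - r)).choose s : ℕ) : k) •
        ((v.choose (s + (t - r)) : k) • mono k (v - (s + (t - r)) + (a + (b - r)))) =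
      ((b.choose r * (s + (t - r)).choose s * v.choose (s + (t - r)) : ℕ) : k) •
        mono k (v - s + b - t + a) := by
    intro r hr
    rw [Finset.mem_range] at hr
    rw [smul_smul]
    by_cases hv : s + (t - r) ≤ v
    · congr 1
      · push_cast
        ring
      · congr 1
        omega
    · rw [Nat.choose_eq_zero_of_lt (by omega : v < s + (t - r))]
      simp
  rw [Finset.sum_congr rfl hterm, ← Finset.sum_smul]
  congr 1
  norm_cast
  -- the numerical identity
  by_cases hvs : s ≤ v
  · have h1 : (v - s + b).choose t = ∑ r ∈ Finset.range (min b t + 1),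
        b.choose r * (v - s).choose (t - r) := by
      rw [add_comm, Nat.add_choose_eq, Finset.Nat.sum_antidiagonal_eq_sum_range_succ_mk]
      symm
      apply Finset.sum_subset
      · intro r hr
        rw [Finset.mem_range] at hr ⊢
        omega
      · intro r hr hr'
        rw [Finset.mem_range] at hr hr'
        rw [Nat.choose_eq_zero_of_lt (by omega : b < r), zero_mul]
    rw [h1, Finset.mul_sum]
    congr 1
    apply Finset.sum_congr rfl
    intro r hr
    rw [Finset.mem_range] at hr
    by_cases hv : s + (t - r) ≤ v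
    · have h2 := Nat.choose_mul (n := v) (k := s + (t - r)) (s := s) (by omega)
      have h3 : s + (t - r) - s = t - r := by omega
      rw [h3] at h2
      calc v.choose s * (b.choose r * (v - s).choose (t - r))
          = b.choose r * (v.choose s * (v - s).choose (t - r)) := by ring
        _ = b.choose r * (v.choose (s + (t - r)) * (s + (t - r)).choose s) := by rw [← h2]
        _ = b.choose r * (s + (t - r)).choose s * v.choose (s + (t - r)) := by ring
    · rw [Nat.choose_eq_zero_of_lt (by omega : v < s + (t - r)),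
        Nat.choose_eq_zero_of_lt (by omega : v - s < t - r)]
      simp
  · rw [Nat.choose_eq_zero_of_lt (by omega : v < s), zero_mul]
    congr 1
    symm
    apply Finset.sum_eq_zero
    intro r hr
    rw [Nat.choose_eq_zero_of_lt (by omega : v < s + (t - r)), mul_zero]

theorem bernstein_mul {i j : ℕ} {P Q : DiffOps k 1} (hP : P ∈ bernstein k 1 i)
    (hQ : Q ∈ bernstein k 1 j) : P * Q ∈ bernstein k 1 (i + j) := by
  rw [bernstein_eq] at hP hQ
  induction hP using Submodule.span_induction with
  | mem P hP =>
    obtain ⟨a, t, hat, rfl⟩ := hP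
    induction hQ using Submodule.span_induction with
    | mem Q hQ =>
      obtain ⟨b, s, hbs, rfl⟩ := hQ
      rw [bop_mul]
      apply Submodule.sum_mem
      intro r hr
      rw [Finset.mem_range] at hr
      apply Submodule.smul_mem
      apply bop_mem_bernstein
      omega
    | zero => rw [mul_zero]; exact Submodule.zero_mem _
    | add Q Q' _ _ h1 h2 => rw [mul_add]; exact Submodule.add_mem _ h1 h2
    | smul c Q _ h1 => rw [mul_smul_comm]; exact Submodule.smul_mem _ _ h1
  | zero => rw [zero_mul]; exact Submodule.zero_mem _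
  | add P P' _ _ h1 h2 => rw [add_mul]; exact Submodule.add_mem _ h1 h2
  | smul c P _ h1 => rw [smul_mul_assoc]; exact Submodule.smul_mem _ _ h1

end

end Pool.Agent.MP12ebf5
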