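import Mathlib
import Pool.Agent.MP_12ebf5_al.Ops
import Pool.Agent.MP_12ebf5_al.Arith

/-!
The module generated by `x ^ α`, `α` the `p`-adic limit of the numbers `sg p m`, realised inside
germs at infinity of sequences of polynomials.
-/

set_option autoImplicit false

namespace Pool.Agent.MP12ebf5

open MvPolynomial Filter

section

variable (k : Type*) [Field k] (p : ℕ)

/-- Germs at infinity of sequences of polynomials. -/
abbrev Gm : Type _ := Germ (atTop : Filter ℕ) (MvPolynomial (Fin 1) k)

/-- The element `x ^ (α + j)`. -/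
noncomputable def E (j : ℤ) : Gm k :=
  ((fun m : ℕ => mono k (((sg p m : ℤ) + j).toNat) : ℕ → MvPolynomial (Fin 1) k) : Gm k)

theorem le_sg (hp : p.Prime) (m : ℕ) : m ≤ sg p m := by
  induction m with
  | zero => exact Nat.zero_le _
  | succ m ih =>
    rw [sg_succ]
    have := q_pos hp m
    omega

instance : IsScalarTower k (DiffOps k 1) (Gm k) where
  smul_assoc c P x := by
    induction x using Germ.inductionOn with
    | _ f =>
      rw [← Germ.coe_smul, ← Germ.coe_smul, ← Germ.coe_smul]
      rfl

variable [CharP k p]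

theorem bop_smul_E_zero (hp : p.Prime) (a t : ℕ) :
    bop k a t • E k p 0 = cc k p t • E k p ((a : ℤ) - t) := by
  rw [E, E, ← Germ.coe_smul, ← Germ.coe_smul]
  apply Germ.coe_eq.2
  filter_upwards [eventually_ge_atTop t] with m hm
  change (bop k a t : Module.End k (MvPolynomial (Fin 1) k)) (mono k _) = cc k p t • mono k _
  rw [bop_mono]
  have h1 : ((sg p m : ℤ) + 0).toNat = sg p m := by omega
  rw [h1, cc_eq hp m t hm]
  congr 2
  have := le_sg p hp m
  omega

theorem bop_smul_E (hp : p.Prime) (a t : ℕ) (j : ℤ) :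
    ∃ κ : k, bop k a t • E k p j = κ • E k p (j - t + a) := by
  let m0 := t + j.natAbs
  refine ⟨((((sg p m0 : ℤ) + j).toNat).choose t : k), ?_⟩
  rw [E, E, ← Germ.coe_smul, ← Germ.coe_smul]
  apply Germ.coe_eq.2
  filter_upwards [eventually_ge_atTop m0] with m hm
  change (bop k a t : Module.End k (MvPolynomial (Fin 1) k)) (mono k _) = (_ : k) • mono k _
  rw [bop_mono]
  congr 1
  · induction m, hm using Nat.le_induction with
    | base => rfl
    | succ m hm ih =>
      have h1 := le_sg p hp m
      have h2 : ((sg p (m + 1) : ℤ) + j).toNat = ((sg p m : ℤ) + j).toNat + q p m := by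
        rw [sg_succ]
        push_cast
        omega
      rw [h2, choose_add_q hp, ih]
      have := lt_q hp m
      omega
  · congr 1
    have := le_sg p hp m
    omega

omit [CharP k p] in
theorem E_linearIndependent (hp : p.Prime) : LinearIndependent k (E k p) := by
  rw [linearIndependent_iff']
  intro s c hc j hj
  have h1 : (∑ i ∈ s, c i • E k p i) =
      ((fun m : ℕ => ∑ i ∈ s, c i • mono k (((sg p m : ℤ) + i).toNat) :
        ℕ → MvPolynomial (Fin 1) k) : Gm k) := by
    clear hc hj
    classical
    induction s using Finset.induction with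
    | empty => rfl
    | insert a s ha ih =>
      rw [Finset.sum_insert ha, ih, E, ← Germ.coe_smul, ← Germ.coe_add]
      congr 1
      funext m
      rw [Finset.sum_insert ha]
      rfl
  rw [h1] at hc
  have h2 : ∀ᶠ m : ℕ in atTop, ∑ i ∈ s, c i • mono k (((sg p m : ℤ) + i).toNat) = 0 :=
    Germ.coe_eq.1 hc
  obtain ⟨m, hm1, hm2⟩ := (h2.and (eventually_ge_atTop (∑ i ∈ s, i.natAbs))).exists
  have hinj : Set.InjOn (fun i : ℤ => ((sg p m : ℤ) + i).toNat) (s : Set ℤ) := by
    intro i hi i' hi' h
    have e1 : i.natAbs ≤ ∑ i ∈ s, i.natAbs := Finset.single_le_sum (fun _ _ => Nat.zero_le _) hi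
    have e2 : i'.natAbs ≤ ∑ i ∈ s, i.natAbs := Finset.single_le_sum (fun _ _ => Nat.zero_le _) hi'
    have e3 := le_sg p hp m
    simp only at h
    omega
  have h3 : LinearIndependent k (fun i : s => mono k (((sg p m : ℤ) + (i : ℤ)).toNat)) :=
    (mono_linearIndependent k).comp (fun i : s => ((sg p m : ℤ) + (i : ℤ)).toNat)
      (fun i i' h => Subtype.ext (hinj i.2 i'.2 h))
  rw [Fintype.linearIndependent_iff] at h3
  refine h3 (fun i => c i) ?_ ⟨j, hj⟩
  rw [← hm1]
  exact Finset.sum_coe_sort s (fun i => c i • mono k (((sg p m : ℤ) + i).toNat))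

end

end Pool.Agent.MP12ebf5
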