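import Mathlib
import Pool.Agent.MP_12ebf5_al.Germ

/-!
The holonomic module generated by `x ^ α`.
-/

set_option autoImplicit false

namespace Pool.Agent.MP12ebf5

open MvPolynomial Filter

section

variable (k : Type*) [Field k]

theorem mulLeft_bernstein (f : MvPolynomial (Fin 1) k) :
    ∃ s, ∀ P : DiffOps k 1, (P : Module.End k (MvPolynomial (Fin 1) k)) = LinearMap.mulLeft k f →
      P ∈ bernstein k 1 s := by
  induction f using MvPolynomial.induction_on' with
  | monomial u c =>
    refine ⟨u 0, fun P hP => ?_⟩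
    have h1 : P = c • bop k (u 0) 0 := by
      apply Subtype.ext
      apply end_ext
      intro v
      rw [hP]
      change _ = c • (bop k (u 0) 0 : Module.End k (MvPolynomial (Fin 1) k)) (mono k v)
      rw [bop_mono, LinearMap.mulLeft_apply, mono, mono, monomial_mul]
      simp only [Nat.choose_zero_right, Nat.cast_one, one_smul, Nat.sub_zero, mul_one]
      rw [smul_monomial, smul_eq_mul, mul_one]
      congr 1
      conv_lhs => rw [fin1_eq u]
      rw [← Finsupp.single_add, add_comm]
    rw [h1]
    exact Submodule.smul_mem _ _ (bop_mem_bernstein k (by omega))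
  | add f g hf hg =>
    obtain ⟨s1, h1⟩ := hf
    obtain ⟨s2, h2⟩ := hg
    refine ⟨max s1 s2, fun P hP => ?_⟩
    let Pf : DiffOps k 1 := ⟨LinearMap.mulLeft k f, Algebra.subset_adjoin (Or.inl ⟨f, rfl⟩)⟩
    let Pg : DiffOps k 1 := ⟨LinearMap.mulLeft k g, Algebra.subset_adjoin (Or.inl ⟨g, rfl⟩)⟩
    have h3 : P = Pf + Pg := by
      apply Subtype.ext
      rw [hP]
      change _ = LinearMap.mulLeft k f + LinearMap.mulLeft k g
      ext x
      simp [add_mul]
    rw [h3]
    exact Submodule.add_mem _ (bernstein_mono k (le_max_left _ _) (h1 Pf rfl))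
      (bernstein_mono k (le_max_right _ _) (h2 Pg rfl))

/-- Every differential operator lies in some piece of the Bernstein filtration. -/
theorem exists_bernstein (P : DiffOps k 1) : ∃ s, P ∈ bernstein k 1 s := by
  obtain ⟨P, hP⟩ := P
  unfold DiffOps at hP
  induction hP using Algebra.adjoin_induction with
  | mem T hT =>
    rcases hT with ⟨f, rfl⟩ | ⟨i, t, rfl⟩
    · obtain ⟨s, hs⟩ := mulLeft_bernstein k f
      exact ⟨s, hs _ rfl⟩
    · refine ⟨t, ?_⟩
      have h1 : (⟨hasse k 1 i t, Algebra.subset_adjoin (Or.inr ⟨i, t, rfl⟩)⟩ : DiffOps k 1) =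
          bop k 0 t := by
        apply Subtype.ext
        apply end_ext
        intro v
        have hi : i = 0 := Subsingleton.elim _ _
        subst hi
        rw [bop_mono, Nat.add_zero]
        exact hasse_mono k t v
      rw [h1]
      exact bop_mem_bernstein k (by omega)
  | algebraMap c =>
    refine ⟨0, ?_⟩
    have h1 : (⟨algebraMap k _ c, Subalgebra.algebraMap_mem _ c⟩ : DiffOps k 1) =
        c • bop k 0 0 := by
      apply Subtype.ext
      apply end_ext
      intro v
      change (algebraMap k (Module.End k (MvPolynomial (Fin 1) k)) c) (mono k v) =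
        c • (bop k 0 0 : Module.End k (MvPolynomial (Fin 1) k)) (mono k v)
      rw [bop_mono]
      simp
    rw [h1]
    exact Submodule.smul_mem _ _ (bop_mem_bernstein k le_rfl)
  | add P Q hP hQ h1 h2 =>
    obtain ⟨s1, h1⟩ := h1
    obtain ⟨s2, h2⟩ := h2
    refine ⟨max s1 s2, ?_⟩
    have h3 := Submodule.add_mem _ (bernstein_mono k (le_max_left s1 s2) h1)
      (bernstein_mono k (le_max_right s1 s2) h2)
    exact h3
  | mul P Q hP hQ h1 h2 =>
    obtain ⟨s1, h1⟩ := h1
    obtain ⟨s2, h2⟩ := h2
    refine ⟨s1 + s2, ?_⟩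
    have h3 := bernstein_mul k h1 h2
    exact h3

section gen

variable {M : Type*} [AddCommGroup M] [Module (DiffOps k 1) M] [Module k M]
  [IsScalarTower k (DiffOps k 1) M]

theorem generated_smul (S : Finset M) {i j : ℕ} {P : DiffOps k 1} (hP : P ∈ bernstein k 1 i)
    {m : M} (hm : m ∈ generated k 1 S j) : P • m ∈ generated k 1 S (i + j) := by
  unfold generated at hm
  have hcomm : ∀ (c : k) (m : M), P • (c • m) = c • (P • m) := by
    intro c m
    rw [← one_smul (DiffOps k 1) m, ← smul_assoc c (1 : DiffOps k 1) m, smul_smul, smul_smul,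
      mul_smul_comm, smul_assoc]
  induction hm using Submodule.span_induction with
  | mem m hm =>
    obtain ⟨Q, hQ, m₀, hm₀, rfl⟩ := hm
    rw [smul_smul]
    exact Submodule.subset_span ⟨P * Q, bernstein_mul k hP hQ, m₀, hm₀, rfl⟩
  | zero => rw [smul_zero]; exact Submodule.zero_mem _
  | add x y _ _ hx hy => rw [smul_add]; exact Submodule.add_mem _ hx hy
  | smul c x _ hx => rw [hcomm]; exact Submodule.smul_mem _ _ hx

omit [IsScalarTower k (DiffOps k 1) M] in
theorem generated_mono (S : Finset M) {i j : ℕ} (h : i ≤ j) :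
    generated k 1 S i ≤ generated k 1 S j := by
  apply Submodule.span_mono
  rintro m ⟨P, hP, m₀, hm₀, rfl⟩
  exact ⟨P, bernstein_mono k h hP, m₀, hm₀, rfl⟩

omit [IsScalarTower k (DiffOps k 1) M] in
theorem subset_generated (S : Finset M) {m : M} (hm : m ∈ Submodule.span k (S : Set M)) (i : ℕ) :
    m ∈ generated k 1 S i := by
  refine Submodule.subset_span ⟨1, ?_, m, hm, (one_smul _ _).symm⟩
  have h1 : (1 : DiffOps k 1) = bop k 0 0 := by
    apply Subtype.ext
    apply end_ext
    intro v
    rw [bop_mono]
    simp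
  rw [h1]
  exact bop_mem_bernstein k (by omega)

theorem exists_generated (S : Finset M)
    (hS : Submodule.span (DiffOps k 1) (S : Set M) = ⊤) (m : M) :
    ∃ i, m ∈ generated k 1 S i := by
  have hm : m ∈ Submodule.span (DiffOps k 1) (S : Set M) := by rw [hS]; trivial
  induction hm using Submodule.span_induction with
  | mem m hm => exact ⟨0, subset_generated k S (Submodule.subset_span hm) 0⟩
  | zero => exact ⟨0, Submodule.zero_mem _⟩
  | add x y _ _ hx hy =>
    obtain ⟨i, hi⟩ := hx
    obtain ⟨j, hj⟩ := hy
    exact ⟨max i j, Submodule.add_mem _ (generated_mono k S (le_max_left _ _) hi)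
      (generated_mono k S (le_max_right _ _) hj)⟩
  | smul P x _ hx =>
    obtain ⟨i, hi⟩ := hx
    obtain ⟨s, hs⟩ := exists_bernstein k P
    exact ⟨s + i, generated_smul k S hs hi⟩

/-- Two finite generating sets give comparable filtrations. -/
theorem generated_compare (S S' : Finset M)
    (hS : Submodule.span (DiffOps k 1) (S : Set M) = ⊤) :
    ∃ c, ∀ i, generated k 1 S' i ≤ generated k 1 S (i + c) := by
  have h1 : ∃ c, ∀ m ∈ S', m ∈ generated k 1 S c := by
    classical
    induction S' using Finset.induction with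
    | empty => exact ⟨0, by simp⟩
    | insert a s _ ih =>
      obtain ⟨c, hc⟩ := ih
      obtain ⟨d, hd⟩ := exists_generated k S hS a
      refine ⟨max c d, fun m hm => ?_⟩
      rcases Finset.mem_insert.1 hm with rfl | hm
      · exact generated_mono k S (le_max_right _ _) hd
      · exact generated_mono k S (le_max_left _ _) (hc m hm)
  obtain ⟨c, hc⟩ := h1
  refine ⟨c, fun i => ?_⟩
  apply Submodule.span_le.2
  rintro m ⟨P, hP, m₀, hm₀, rfl⟩
  apply generated_smul k S hP
  have h2 : Submodule.span k (S' : Set M) ≤ generated k 1 S c := by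
    apply Submodule.span_le.2
    intro m hm
    exact hc m hm
  exact h2 hm₀

end gen

end

end Pool.Agent.MP12ebf5
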