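import Mathlib
import Pool.Agent.MP_12ebf5_al.Module

/-!
Dimensions of the filtration generated by `x ^ α`.
-/

set_option autoImplicit false

namespace Pool.Agent.MP12ebf5

open MvPolynomial Filter

section

variable (k : Type*) [Field k] (p : ℕ)

/-- The module generated by `x ^ α`. -/
noncomputable def MM : Submodule (DiffOps k 1) (Gm k) := Submodule.span _ {E k p 0}

noncomputable instance instAddCommGroupMM : AddCommGroup (MM k p) :=
  Submodule.addCommGroup (R := DiffOps k 1) (M := Gm k) (MM k p)

noncomputable instance instModuleMM : Module (DiffOps k 1) (MM k p) := Submodule.module _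

noncomputable instance instSMulMM : SMul (DiffOps k 1) (MM k p) := (instModuleMM k p).toSMul

noncomputable instance instModuleMM' : Module k (MM k p) := Submodule.module' _

instance instIsScalarTowerMM : IsScalarTower k (DiffOps k 1) (MM k p) :=
  Submodule.isScalarTower' _

/-- The generator. -/
noncomputable def e0 : MM k p := ⟨E k p 0, Submodule.subset_span rfl⟩

theorem span_e0 : Submodule.span (DiffOps k 1) (({e0 k p} : Finset (MM k p)) : Set (MM k p)) = ⊤ := by
  rw [eq_top_iff]
  rintro ⟨x, hx⟩ _
  rw [Finset.coe_singleton]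
  unfold MM at hx
  rw [Submodule.mem_span_singleton] at hx ⊢
  obtain ⟨P, hP⟩ := hx
  exact ⟨P, Subtype.ext hP⟩

/-- Inclusion as a `k`-linear map. -/
noncomputable def inc : MM k p →ₗ[k] Gm k := (MM k p).subtype.restrictScalars k

theorem inc_injective : Function.Injective (inc k p) := Subtype.val_injective

open Classical in
/-- The exponents occurring in degree `≤ i`. -/
noncomputable def J (i : ℕ) : Finset ℤ :=
  ((Finset.range (i + 1) ×ˢ Finset.range (i + 1)).filter
    (fun at' => at'.1 + at'.2 ≤ i ∧ cc k p at'.2 ≠ 0)).image (fun at' => (at'.1 : ℤ) - at'.2)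

theorem mem_J {i : ℕ} {z : ℤ} : z ∈ J k p i ↔
    ∃ a t : ℕ, a + t ≤ i ∧ cc k p t ≠ 0 ∧ (a : ℤ) - t = z := by
  classical
  simp only [J, Finset.mem_image, Finset.mem_filter, Finset.mem_product, Finset.mem_range,
    Prod.exists]
  constructor
  · rintro ⟨a, t, ⟨_, h1, h2⟩, h3⟩
    exact ⟨a, t, h1, h2, h3⟩
  · rintro ⟨a, t, h1, h2, h3⟩
    exact ⟨a, t, ⟨⟨by omega, by omega⟩, h1, h2⟩, h3⟩

variable [CharP k p]

theorem map_generated (hp : p.Prime) (i : ℕ) :
    (generated k 1 {e0 k p} i).map (inc k p) = Submodule.span k (E k p '' (J k p i : Set ℤ)) := by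
  apply le_antisymm
  · rw [generated, Submodule.map_span, Submodule.span_le]
    rintro _ ⟨m, ⟨P, hP, m₀, hm₀, rfl⟩, rfl⟩
    rw [Finset.coe_singleton, Submodule.mem_span_singleton] at hm₀
    obtain ⟨c, rfl⟩ := hm₀
    change P • (c • E k p 0) ∈ Submodule.span k (E k p '' (J k p i : Set ℤ))
    rw [bernstein_eq] at hP
    have hcomm : P • (c • E k p 0) = c • (P • E k p 0) := by
      rw [← one_smul (DiffOps k 1) (E k p 0), ← smul_assoc c (1 : DiffOps k 1), smul_smul,
        smul_smul, mul_smul_comm, smul_assoc]
    rw [hcomm]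
    apply Submodule.smul_mem
    clear hcomm
    induction hP using Submodule.span_induction with
    | mem P hP =>
      obtain ⟨a, t, hat, rfl⟩ := hP
      rw [bop_smul_E_zero k p hp]
      by_cases h0 : cc k p t = 0
      · rw [h0, zero_smul]
        exact Submodule.zero_mem _
      · apply Submodule.smul_mem
        exact Submodule.subset_span ⟨_, (mem_J k p).2 ⟨a, t, hat, h0, rfl⟩, rfl⟩
    | zero => rw [zero_smul]; exact Submodule.zero_mem _
    | add P Q _ _ h1 h2 => rw [add_smul]; exact Submodule.add_mem _ h1 h2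
    | smul d P _ h1 => rw [smul_assoc]; exact Submodule.smul_mem _ _ h1
  · rw [Submodule.span_le]
    rintro _ ⟨z, hz, rfl⟩
    obtain ⟨a, t, hat, h0, rfl⟩ := (mem_J k p).1 hz
    have h1 : bop k a t • e0 k p ∈ generated k 1 {e0 k p} i :=
      Submodule.subset_span ⟨_, bop_mem_bernstein k hat, e0 k p,
        Submodule.subset_span (by simp), rfl⟩
    have h2 : E k p ((a : ℤ) - t) = (cc k p t)⁻¹ • (bop k a t • E k p 0) := by
      rw [bop_smul_E_zero k p hp, smul_smul, inv_mul_cancel₀ h0, one_smul]
    change E k p ((a : ℤ) - t) ∈ (generated k 1 {e0 k p} i).map (inc k p)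
    rw [h2]
    apply Submodule.smul_mem
    exact ⟨_, h1, rfl⟩

omit [CharP k p] in
theorem finrank_span_E (hp : p.Prime) (s : Finset ℤ) :
    Module.Finite k (Submodule.span k (E k p '' (s : Set ℤ))) ∧
    Module.finrank k (Submodule.span k (E k p '' (s : Set ℤ))) = s.card := by
  classical
  have h1 : LinearIndependent k (fun z : s => E k p z) :=
    (E_linearIndependent k p hp).comp (fun z : s => (z : ℤ)) Subtype.val_injective
  have h2 : E k p '' (s : Set ℤ) = Set.range (fun z : s => E k p z) := by
    ext x
    simp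
  rw [h2]
  constructor
  · exact Module.Finite.span_of_finite k (Set.finite_range _)
  · rw [finrank_span_eq_card h1]
    simp

theorem finrank_generated (hp : p.Prime) (i : ℕ) :
    Module.Finite k (generated k 1 {e0 k p} i) ∧
    Module.finrank k (generated k 1 {e0 k p} i) = (J k p i).card := by
  have e := Submodule.equivMapOfInjective (inc k p) (inc_injective k p) (generated k 1 {e0 k p} i)
  rw [map_generated k p hp] at e
  have h := finrank_span_E k p hp (J k p i)
  have := h.1
  constructor
  · exact Module.Finite.equiv e.symm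
  · rw [e.finrank_eq, h.2]

/-- The module is holonomic. -/
theorem holonomic (hp : p.Prime) : IsHolonomic k 1 (MM k p) := by
  classical
  let F : ℕ → Submodule k (MM k p) := fun i =>
    (Submodule.span k (E k p '' ((Finset.Icc (-(i : ℤ)) i : Finset ℤ) : Set ℤ))).comap (inc k p)
  have hmono : ∀ i j : ℕ, i ≤ j → F i ≤ F j := by
    intro i j hij
    apply Submodule.comap_mono
    apply Submodule.span_mono
    apply Set.image_mono
    intro z hz
    simp only [Finset.coe_Icc, Set.mem_Icc] at hz ⊢
    omega
  have hsm : ∀ i j : ℕ, ∀ P ∈ bernstein k 1 i, ∀ x ∈ Submodule.span k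
      (E k p '' ((Finset.Icc (-(j : ℤ)) j : Finset ℤ) : Set ℤ)), P • x ∈ Submodule.span k
      (E k p '' ((Finset.Icc (-((i + j : ℕ) : ℤ)) ((i + j : ℕ) : ℤ) : Finset ℤ) : Set ℤ)) := by
    intro i j P hP x hx
    rw [bernstein_eq] at hP
    induction hx using Submodule.span_induction with
    | mem x hx =>
      obtain ⟨z, hz, rfl⟩ := hx
      induction hP using Submodule.span_induction with
      | mem P hP =>
        obtain ⟨a, t, hat, rfl⟩ := hP
        obtain ⟨κ, hκ⟩ := bop_smul_E k p hp a t z
        rw [hκ]
        apply Submodule.smul_mem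
        refine Submodule.subset_span ⟨_, ?_, rfl⟩
        simp only [Finset.coe_Icc, Set.mem_Icc] at hz ⊢
        push_cast
        omega
      | zero => rw [zero_smul]; exact Submodule.zero_mem _
      | add P Q _ _ h1 h2 => rw [add_smul]; exact Submodule.add_mem _ h1 h2
      | smul d P _ h1 => rw [smul_assoc]; exact Submodule.smul_mem _ _ h1
    | zero => rw [smul_zero]; exact Submodule.zero_mem _
    | add x y _ _ h1 h2 => rw [smul_add]; exact Submodule.add_mem _ h1 h2
    | smul c x _ h1 =>
      have hcomm : P • (c • x) = c • (P • x) := by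
        rw [← one_smul (DiffOps k 1) x, ← smul_assoc c (1 : DiffOps k 1), smul_smul,
          smul_smul, mul_smul_comm, smul_assoc]
      rw [hcomm]
      exact Submodule.smul_mem _ _ h1
  refine ⟨F, ⟨fun i => hmono i (i + 1) (Nat.le_succ i), ?_, ?_⟩, 3, ?_⟩
  · rintro ⟨x, hx⟩
    unfold MM at hx
    rw [Submodule.mem_span_singleton] at hx
    obtain ⟨P, rfl⟩ := hx
    obtain ⟨s, hs⟩ := exists_bernstein k P
    refine ⟨s, ?_⟩
    have h1 := hsm s 0 P hs (E k p 0) (Submodule.subset_span ⟨0, by simp, rfl⟩)
    exact h1
  · intro i j P hP m hm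
    exact hsm i j P hP _ hm
  · intro i hi
    have h1 := finrank_span_E k p hp (Finset.Icc (-(i : ℤ)) i)
    have h2 := h1.1
    let g : F i →ₗ[k] Submodule.span k (E k p '' ((Finset.Icc (-(i : ℤ)) i : Finset ℤ) : Set ℤ)) :=
      (inc k p).restrict (fun x hx => hx)
    have hg : Function.Injective g := by
      intro x y h
      apply Subtype.ext
      apply inc_injective k p
      have h' := congrArg Subtype.val h
      exact h'
    constructor
    · exact Module.Finite.of_injective g hg
    · have h3 := LinearMap.finrank_le_finrank_of_injective hg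
      rw [h1.2, Int.card_Icc] at h3
      have h4 : Module.finrank k (F i) ≤ 3 * i := by omega
      have h5 : (Module.finrank k (F i) : ℝ) ≤ ((3 * i : ℕ) : ℝ) := by exact_mod_cast h4
      rw [pow_one]
      push_cast at h5
      exact h5

end

end Pool.Agent.MP12ebf5
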