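import Mathlib
import Pool.Agent.MP_12ebf5_al.Dim

/-!
Growth of the dimensions of the filtration generated by `x ^ α`.
-/

set_option autoImplicit false

namespace Pool.Agent.MP12ebf5

open MvPolynomial Filter

section

variable (k : Type*) [Field k] (p : ℕ) [CharP k p]

theorem cc_ne_zero_cases (hp : p.Prime) {m t : ℕ} (ht : t < q p (m + 1)) (h : cc k p t ≠ 0) :
    t ≤ sg p m ∨ (q p m ≤ t ∧ t ≤ q p m + sg p m) := by
  by_contra hcon
  push Not at hcon
  obtain ⟨h1, h2⟩ := hcon
  rcases lt_or_ge t (q p m) with h3 | h3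
  · exact h (cc_zero_of hp m t h1 h3)
  · have h4 := h2 h3
    apply h
    apply cc_zero_of hp (m + 1) t _ ht
    rw [sg_succ]
    omega

theorem card_J_le (hp : p.Prime) {m i : ℕ} (h1 : q p m ≤ i) (h2 : i < q p (m + 1)) :
    2 * (J k p i).card ≤ 3 * (i + 1) + 4 * sg p m := by
  have hsub : J k p i ⊆ Finset.Icc (-(sg p m : ℤ)) i ∪
      Finset.Icc (-((q p m : ℤ) + sg p m)) ((i : ℤ) - 2 * q p m) := by
    intro z hz
    obtain ⟨a, t, hat, h0, rfl⟩ := (mem_J k p).1 hz
    rw [Finset.mem_union, Finset.mem_Icc, Finset.mem_Icc]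
    rcases cc_ne_zero_cases k p hp (m := m) (by omega) h0 with h3 | ⟨h3, h4⟩
    · left
      omega
    · right
      omega
  rcases le_or_gt (2 * q p m) (i + 1) with h3 | h3
  · have hsub2 : J k p i ⊆ Finset.Icc (-((q p m : ℤ) + sg p m)) i := by
      refine hsub.trans ?_
      intro z hz
      rw [Finset.mem_union, Finset.mem_Icc, Finset.mem_Icc] at hz
      rw [Finset.mem_Icc]
      omega
    have h4 := Finset.card_le_card hsub2
    rw [Int.card_Icc] at h4
    omega
  · have h4 := (Finset.card_le_card hsub).trans (Finset.card_union_le _ _)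
    rw [Int.card_Icc, Int.card_Icc] at h4
    omega

theorem card_J_lower (hp : p.Prime) (m : ℕ) : 3 * q p m + 1 ≤ (J k p (2 * q p m)).card := by
  have hsub : Finset.Icc (-(q p m : ℤ)) (2 * q p m) ⊆ J k p (2 * q p m) := by
    intro z hz
    rw [Finset.mem_Icc] at hz
    rw [mem_J]
    rcases le_or_gt 0 z with h | h
    · refine ⟨z.toNat, 0, by omega, ?_, by omega⟩
      rw [cc_zero]
      exact one_ne_zero
    · refine ⟨(z + q p m).toNat, q p m, by omega, ?_, by omega⟩
      rw [cc_q hp]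
      exact one_ne_zero
  have h4 := Finset.card_le_card hsub
  rw [Int.card_Icc] at h4
  omega

theorem card_J_small (hp : p.Prime) (m : ℕ) : (J k p (q p m - 1)).card ≤ q p m + sg p m := by
  have hq := q_pos hp m
  have hsub : J k p (q p m - 1) ⊆ Finset.Icc (-(sg p m : ℤ)) ((q p m : ℤ) - 1) := by
    intro z hz
    obtain ⟨a, t, hat, h0, rfl⟩ := (mem_J k p).1 hz
    rw [Finset.mem_Icc]
    have h1 : t ≤ sg p m := by
      by_contra hcon
      push Not at hcon
      exact h0 (cc_zero_of hp m t hcon (by omega))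
    omega
  have h4 := Finset.card_le_card hsub
  rw [Int.card_Icc] at h4
  omega

theorem card_J_upper (hp : p.Prime) (M i : ℕ) (hi : q p M ≤ i) :
    2 * M * (J k p i).card ≤ 3 * M * (i + 1) + 4 * i := by
  classical
  have hex : ∃ n, i < q p n := ⟨i, lt_q hp i⟩
  have h1 := Nat.find_spec hex
  have h2 : M < Nat.find hex := by
    by_contra hcon
    push Not at hcon
    have h3 := (q_strictMono hp).monotone hcon
    omega
  obtain ⟨m, hm⟩ : ∃ m, Nat.find hex = m + 1 := ⟨Nat.find hex - 1, by omega⟩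
  have h3 : ¬ i < q p m := Nat.find_min hex (by omega)
  rw [hm] at h1 h2
  have h4 := card_J_le k p hp (m := m) (i := i) (by omega) h1
  have h5 := (mul_sg_le hp m).1
  have h6 : M * sg p m ≤ i := by
    calc M * sg p m ≤ m * sg p m := Nat.mul_le_mul_right _ (by omega)
      _ ≤ q p m := h5
      _ ≤ i := by omega
  nlinarith [Nat.mul_le_mul_left M h4]

end

/-- The numerical core. -/
theorem core (p : ℕ) (hp : p.Prime) (f g : ℕ → ℕ) (c c' : ℕ)
    (hU : ∀ M i, q p M ≤ i → 2 * M * f i ≤ 3 * M * (i + 1) + 4 * i)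
    (hL : ∀ m, 3 * q p m + 1 ≤ f (2 * q p m))
    (hS : ∀ m, f (q p m - 1) ≤ q p m + sg p m)
    (h1 : ∀ i, g i ≤ f (i + c)) (h2 : ∀ i, f i ≤ g (i + c')) :
    Filter.limsup (fun i : ℕ => (g i : ℝ) / (i : ℝ) ^ 1) Filter.atTop = 3 / 2 ∧
    (∀ ε : ℝ, 0 < ε → ∃ᶠ i : ℕ in atTop, (g i : ℝ) / (i : ℝ) ^ 1 ≤ 1 + ε) := by
  have hup : ∀ ε : ℝ, 0 < ε → ∀ᶠ i : ℕ in atTop, (g i : ℝ) / (i : ℝ) ^ 1 ≤ 3 / 2 + ε := by
    intro ε hε
    obtain ⟨M, hM⟩ := exists_nat_gt (4 / ε)
    have hM0 : (0 : ℝ) < M := lt_trans (by positivity) hM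
    have hM0' : 0 < M := by exact_mod_cast hM0
    obtain ⟨N, hN⟩ := exists_nat_gt ((3 * M * (c + 1) + 4 * c : ℝ))
    filter_upwards [eventually_ge_atTop (q p M), eventually_ge_atTop N, eventually_gt_atTop 0]
      with i hi1 hi2 hi3
    have h3 := hU M (i + c) (by omega)
    have h4 : 2 * M * g i ≤ 3 * M * (i + c + 1) + 4 * (i + c) :=
      (Nat.mul_le_mul_left _ (h1 i)).trans h3
    have h5 : (2 * M * g i : ℝ) ≤ 3 * M * (i + c + 1) + 4 * (i + c) := by exact_mod_cast h4
    have hi0 : (0 : ℝ) < i := by exact_mod_cast hi3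
    have hi2' : (N : ℝ) ≤ i := by exact_mod_cast hi2
    rw [pow_one, div_le_iff₀ hi0]
    have h6 : 4 < ε * M := by
      rw [div_lt_iff₀ hε] at hM
      linarith
    have h7 : (2 * M : ℝ) * g i ≤ 2 * M * ((3 / 2 + ε) * i) := by
      have h8 : (3 * M * (i + c + 1) + 4 * (i + c) : ℝ) = 3 * M * i + 4 * i +
        (3 * M * (c + 1) + 4 * c) := by ring
      have h9 : (3 * M * (c + 1) + 4 * c : ℝ) ≤ i := by linarith
      have h10 : (2 * M : ℝ) * ((3 / 2 + ε) * i) = 3 * M * i + 2 * (ε * M) * i := by ring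
      nlinarith
    exact le_of_mul_le_mul_left h7 (by positivity)
  have hlow : ∀ ε : ℝ, 0 < ε → ∃ᶠ i : ℕ in atTop, 3 / 2 - ε ≤ (g i : ℝ) / (i : ℝ) ^ 1 := by
    intro ε hε
    rw [frequently_atTop]
    intro a
    obtain ⟨m, hm⟩ := exists_nat_gt (max (a : ℝ) ((3 / 2 * c') / ε))
    have hm1 : (a : ℝ) < m := lt_of_le_of_lt (le_max_left _ _) hm
    have hm2 : (3 / 2 * c') / ε < m := lt_of_le_of_lt (le_max_right _ _) hm
    have hq := lt_q hp m
    have hm1' : a < m := by exact_mod_cast hm1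
    refine ⟨2 * q p m + c', by omega, ?_⟩
    have h3 : (3 * q p m + 1 : ℝ) ≤ g (2 * q p m + c') := by
      exact_mod_cast (hL m).trans (h2 _)
    have hq' : (m : ℝ) < q p m := by exact_mod_cast hq
    have hq0 : (0 : ℝ) < q p m := by exact_mod_cast q_pos hp m
    have hc0 : (0 : ℝ) ≤ c' := Nat.cast_nonneg _
    push_cast
    rw [pow_one, le_div_iff₀ (by positivity)]
    rw [div_lt_iff₀ hε] at hm2
    nlinarith
  constructor
  · apply le_antisymm
    · apply le_of_forall_pos_le_add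
      intro ε hε
      apply Filter.limsup_le_of_le _ (hup ε hε)
      exact Filter.isCoboundedUnder_le_of_le atTop (x := 0) (fun i => by positivity)
    · apply le_of_forall_pos_le_add
      intro ε hε
      have h3 := Filter.le_limsup_of_frequently_le (hlow ε hε) ⟨3 / 2 + 1, by
        rw [eventually_map]
        exact hup 1 one_pos⟩
      linarith
  · intro ε hε
    rw [frequently_atTop]
    intro a
    obtain ⟨m, hm⟩ := exists_nat_gt (max ((a : ℝ) + c + 1) (max (2 * (1 + ε) * (1 + c) / ε) (2 / ε)))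
    have hm1 : (a : ℝ) + c + 1 < m := lt_of_le_of_lt (le_max_left _ _) hm
    have hm2 : 2 * (1 + ε) * (1 + c) / ε < m :=
      lt_of_le_of_lt ((le_max_left _ _).trans (le_max_right _ _)) hm
    have hm3 : 2 / ε < m :=
      lt_of_le_of_lt ((le_max_right _ _).trans (le_max_right _ _)) hm
    have hq := lt_q hp m
    have hm1' : a + c + 1 < m := by exact_mod_cast hm1
    refine ⟨q p m - 1 - c, by omega, ?_⟩
    have h3 : g (q p m - 1 - c) ≤ q p m + sg p m := by
      refine (h1 _).trans ?_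
      have : q p m - 1 - c + c = q p m - 1 := by omega
      rw [this]
      exact hS m
    have h4 : (g (q p m - 1 - c) : ℝ) ≤ q p m + sg p m := by exact_mod_cast h3
    have h5 : ((q p m - 1 - c : ℕ) : ℝ) = q p m - 1 - c := by
      rw [Nat.cast_sub (by omega), Nat.cast_sub (by omega)]
      push_cast
      ring
    have h6 : (m : ℝ) * sg p m ≤ q p m := by exact_mod_cast (mul_sg_le hp m).1
    have hq' : (m : ℝ) < q p m := by exact_mod_cast hq
    have hm0 : (0 : ℝ) < m := by
      have : (0 : ℝ) ≤ a := Nat.cast_nonneg _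
      have : (0 : ℝ) ≤ c := Nat.cast_nonneg _
      linarith
    have hpos : (0 : ℝ) < q p m - 1 - c := by
      have : (0 : ℝ) ≤ a := Nat.cast_nonneg _
      linarith
    rw [h5, pow_one, div_le_iff₀ hpos]
    rw [div_lt_iff₀ hε] at hm2 hm3
    -- `sg ≤ q / m ≤ ε q / 2`
    have h7 : (sg p m : ℝ) ≤ ε / 2 * q p m := by
      have h8 : (2 : ℝ) * sg p m ≤ m * ε * sg p m := by
        apply mul_le_mul_of_nonneg_right (le_of_lt hm3) (Nat.cast_nonneg _)
      nlinarith
    have h9 : (1 + ε) * (1 + c) ≤ ε / 2 * q p m := by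
      nlinarith
    nlinarith

end Pool.Agent.MP12ebf5
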