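import Mathlib
import Pool.Agent.MP_12ebf5_al.Count

/-!
Behaviour of the dimensions for every finite generating set of the module generated by `x ^ α`.
-/

set_option autoImplicit false

namespace Pool.Agent.MP12ebf5

open MvPolynomial Filter

section

variable (k : Type*) [Field k] (p : ℕ) [CharP k p]

omit [CharP k p] in
theorem card_J_le_two_mul (i : ℕ) : (J k p i).card ≤ 2 * i + 1 := by
  have hsub : J k p i ⊆ Finset.Icc (-(i : ℤ)) i := by
    intro z hz
    obtain ⟨a, t, hat, h0, rfl⟩ := (mem_J k p).1 hz
    rw [Finset.mem_Icc]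
    omega
  have h4 := Finset.card_le_card hsub
  rw [Int.card_Icc] at h4
  omega

theorem summary (hp : p.Prime) (S : Finset (MM k p))
    (hS : Submodule.span (DiffOps k 1) (S : Set (MM k p)) = ⊤) :
    (∀ i, Module.Finite k (generated k 1 S i)) ∧
    eMult k 1 S = 3 / 2 ∧
    (∀ ε : ℝ, 0 < ε → ∃ᶠ i : ℕ in atTop,
      (Module.finrank k (generated k 1 S i) : ℝ) / (i : ℝ) ^ 1 ≤ 1 + ε) ∧
    ∃ C : ℝ, ∀ i : ℕ, 1 ≤ i →
      (Module.finrank k (generated k 1 S i) : ℝ) / (i : ℝ) ^ 1 ≤ C := by
  obtain ⟨c, hc⟩ := generated_compare k ({e0 k p} : Finset (MM k p)) S (span_e0 k p)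
  obtain ⟨c', hc'⟩ := generated_compare k S ({e0 k p} : Finset (MM k p)) hS
  have hfin : ∀ i, Module.Finite k (generated k 1 S i) := by
    intro i
    have := (finrank_generated k p hp (i + c)).1
    exact Submodule.finiteDimensional_of_le (hc i)
  have h1 : ∀ i, Module.finrank k (generated k 1 S i) ≤ (J k p (i + c)).card := by
    intro i
    have h := finrank_generated k p hp (i + c)
    have := h.1
    rw [← h.2]
    exact Submodule.finrank_mono (hc i)
  have h2 : ∀ i, (J k p i).card ≤ Module.finrank k (generated k 1 S (i + c')) := by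
    intro i
    have h := finrank_generated k p hp i
    have := hfin (i + c')
    rw [← h.2]
    exact Submodule.finrank_mono (hc' i)
  have h3 := core p hp (fun i => (J k p i).card) (fun i => Module.finrank k (generated k 1 S i))
    c c' (fun M i hi => card_J_upper k p hp M i hi) (card_J_lower k p hp) (card_J_small k p hp)
    h1 h2
  refine ⟨hfin, h3.1, h3.2, 2 * c + 3, fun i hi => ?_⟩
  have h4 : Module.finrank k (generated k 1 S i) ≤ (2 * c + 3) * i := by
    refine (h1 i).trans ((card_J_le_two_mul k p (i + c)).trans ?_)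
    nlinarith
  have h5 : (Module.finrank k (generated k 1 S i) : ℝ) ≤ (2 * c + 3) * i := by exact_mod_cast h4
  have hi0 : (0 : ℝ) < i := by exact_mod_cast hi
  rw [pow_one, div_le_iff₀ hi0]
  exact h5

end

end Pool.Agent.MP12ebf5
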